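import Pool.Agent.H470D4.Seq

set_option autoImplicit false

namespace Pool.Agent.Results.MP_f4022e_nt.SubLogSequenceAllDim

open MeasureTheory Filter

/-- `B` is an axis-parallel box contained in `[0,1)^d`: a product of `d` (possibly empty, open,
closed or half-open) subintervals of `[0,1)`. -/
def IsBox (d : ℕ) (B : Set (Fin d → ℝ)) : Prop :=
  ∃ I : Fin d → Set ℝ, (∀ i, (I i).OrdConnected ∧ I i ⊆ Set.Ico 0 1) ∧ B = Set.univ.pi I

/-- `A_N(B)`: the number of `0 ≤ n < N` with `z n ∈ B`. -/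
noncomputable def countIn {d : ℕ} (z : ℕ → Fin d → ℝ) (N : ℕ) (B : Set (Fin d → ℝ)) : ℕ :=
  {n : ℕ | n < N ∧ z n ∈ B}.ncard

/-- The extreme discrepancy `D_N` of the first `N` points of `z`: the supremum of
`|A_N(B)/N - λ(B)|` over all boxes `B` in `[0,1)^d`. -/
noncomputable def extremeDisc {d : ℕ} (z : ℕ → Fin d → ℝ) (N : ℕ) : ℝ :=
  sSup {r : ℝ | ∃ B : Set (Fin d → ℝ), IsBox d B ∧
    r = |(countIn z N B : ℝ) / N - (volume B).toReal|}

/-- For every `d ≥ 2` there is a sequence in `[0,1)^d` with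
`D_N ≤ C (log N)^d / (N (log log N)^d)` for all `N ≥ 3`; hence for every `c > 0` it has
`D_N < c (log N)^d / N` for all large `N`. -/
theorem result : ∀ d : ℕ, 2 ≤ d →
    ∃ z : ℕ → Fin d → ℝ, (∀ n i, z n i ∈ Set.Ico (0:ℝ) 1) ∧
      (∃ C : ℝ, ∀ N : ℕ, 3 ≤ N →
        extremeDisc z N ≤ C * (Real.log N) ^ d / (N * (Real.log (Real.log N)) ^ d)) ∧
      (∀ c : ℝ, 0 < c → ∀ᶠ N : ℕ in atTop, extremeDisc z N < c * (Real.log N) ^ d / N) := by
  intro d hd
  obtain ⟨n, rfl⟩ : ∃ n, d = n + 2 := ⟨d - 2, by omega⟩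
  obtain ⟨z, hz, C, hC, hb⟩ := H470D4.seq_all n
  have hD : ∀ N : ℕ, 3 ≤ N → extremeDisc z N ≤
      (2 ^ (n+2) * C) * (Real.log N) ^ (n+2) / (N * (Real.log (Real.log N)) ^ (n+2)) := by
    intro N hN
    have hN0 : (0:ℝ) < N := by exact_mod_cast (by omega : 0 < N)
    unfold extremeDisc
    apply csSup_le
    · exact ⟨_, ∅, ⟨fun _ => ∅, fun i => ⟨Set.ordConnected_empty, Set.empty_subset _⟩, by
        symm
        rw [Set.univ_pi_eq_empty_iff]
        exact ⟨0, rfl⟩⟩, rfl⟩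
    · rintro r ⟨B, ⟨I, hI, rfl⟩, rfl⟩
      have h1 := H470D4.box_of_star hz (hb N hN) I hI
      have h2 : (volume (Set.univ.pi I)).toReal = ∏ i, (volume (I i)).toReal := by
        rw [volume_pi_pi, ENNReal.toReal_prod]
      have h3 : (countIn z N (Set.univ.pi I) : ℝ) = H470R2.num N (fun n => ∀ i, z n i ∈ I i) := by
        unfold countIn H470R2.num
        congr 2
        ext n
        simp only [Set.mem_ofPred_eq, Set.mem_pi, Set.mem_univ, forall_true_left]
      rw [h3, h2]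
      have h4 : H470R2.num N (fun n => ∀ i, z n i ∈ I i) / N - ∏ i, (volume (I i)).toReal =
          (H470R2.num N (fun n => ∀ i, z n i ∈ I i) - N * ∏ i, (volume (I i)).toReal) / N := by
        field_simp
      rw [h4, abs_div, abs_of_pos hN0]
      calc |H470R2.num N (fun n => ∀ i, z n i ∈ I i) - N * ∏ i, (volume (I i)).toReal| / N ≤
          (2 ^ (n+2) * (C * (Real.log N / Real.log (Real.log N)) ^ (n+2))) / N :=
            div_le_div_of_nonneg_right h1 hN0.le
        _ = _ := by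
            rw [div_pow, mul_comm (N:ℝ), ← div_div]
            ring
  refine ⟨z, hz, ⟨2 ^ (n+2) * C, hD⟩, ?_⟩
  intro c hc
  have t1 : Tendsto (fun N : ℕ => Real.log (N:ℝ)) atTop atTop :=
    Real.tendsto_log_atTop.comp tendsto_natCast_atTop_atTop
  have t2 : Tendsto (fun N : ℕ => Real.log (Real.log (N:ℝ))) atTop atTop :=
    Real.tendsto_log_atTop.comp t1
  have t3 : Tendsto (fun N : ℕ => (2 ^ (n+2) * C) / (Real.log (Real.log (N:ℝ))) ^ (n+2)) atTop
      (nhds 0) := by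
    apply Tendsto.div_atTop tendsto_const_nhds
    exact (tendsto_pow_atTop (by omega)).comp t2
  have e1 := t3.eventually (gt_mem_nhds hc)
  have e2 := t1.eventually (eventually_gt_atTop 1)
  filter_upwards [e1, e2, eventually_ge_atTop 3] with N a1 a2 a3
  have hN0 : (0:ℝ) < N := by exact_mod_cast (by omega : 0 < N)
  have hl0 : 0 < Real.log (N:ℝ) := by linarith
  refine lt_of_le_of_lt (hD N a3) ?_
  have hpos : 0 < (Real.log (N:ℝ)) ^ (n+2) / N := by positivity
  calc (2 ^ (n+2) * C) * (Real.log N) ^ (n+2) / (N * (Real.log (Real.log N)) ^ (n+2))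
      = ((2 ^ (n+2) * C) / (Real.log (Real.log (N:ℝ))) ^ (n+2)) * ((Real.log (N:ℝ)) ^ (n+2) / N) := by
        rw [div_mul_div_comm, mul_comm (N:ℝ)]
    _ < c * ((Real.log (N:ℝ)) ^ (n+2) / N) := mul_lt_mul_of_pos_right a1 hpos
    _ = c * (Real.log N) ^ (n+2) / N := by ring

end Pool.Agent.Results.MP_f4022e_nt.SubLogSequenceAllDim
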